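import Pool.Agent.Helper24_SO.View

set_option autoImplicit false
set_option linter.unusedVariables false

namespace Pool.Agent.SO.H24

open Pool.Agent.SO

theorem adj_hel {n m : ℕ} {T : Fin m → Fin 3 → Fin n} {i : Fin (n + 2)} {z : Vx n m}
    (h : (Gr T).Adj (.hel i) z) : (∃ i', z = .top i' ∧ i' ≠ i) ∨ ∃ j s, z = .jam j s := by
  obtain ⟨-, h⟩ := h
  cases z <;> simp_all [adj0]
  exact fun h2 => h h2.symm

theorem hel : HelStmt := by
  intro n m T ps hG i
  have hn1 : (1 : ℝ) ≤ (n : ℝ) + 1 := by
    have : (0 : ℝ) ≤ n := by positivity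
    linarith
  have hn' : (0 : ℝ) < (n : ℝ) + 1 := by positivity
  have hps : ∀ i, ps i ≤ n + 1 := by
    intro i
    rcases lt_trichotomy i.val n with h | h | h
    · have := hG.lt i h; omega
    · have := hG.inf i h; omega
    · have := hG.last i (by have := i.isLt; omega); omega
  have hX : ∀ i, 0 ≤ (ps i : ℝ) / (n + 1) ∧ (ps i : ℝ) / (n + 1) ≤ 1 := by
    intro i
    constructor
    · positivity
    · rw [div_le_one hn']
      exact_mod_cast hps i
  set X : Fin (n + 2) → ℝ := fun i => (ps i : ℝ) / (n + 1) with hXd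
  have htop : ∀ i, pl T ps (.top i) = (X i, 1 - X i ^ 2 / 100) := fun i => rfl
  have hhel : ∀ i, pl T ps (.hel i) = (-10, 1 + X i ^ 2 / 100 + X i / 5) := fun i => rfl
  have hXne : ∀ i i', i ≠ i' → 1 / ((n : ℝ) + 1) ^ 2 ≤ (X i - X i') ^ 2 := by
    intro i i' hne
    have h1 : (ps i : ℤ) - (ps i' : ℤ) ≠ 0 := by
      intro h0
      exact hne (hG.inj (by omega))
    have h2 := Int.one_le_abs h1
    have h3 : (1 : ℝ) ≤ |(ps i : ℝ) - (ps i' : ℝ)| := by exact_mod_cast h2
    have h4 : X i - X i' = ((ps i : ℝ) - ps i') / (n + 1) := by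
      simp only [hXd]; rw [sub_div]
    rw [h4, div_pow]
    apply div_le_div_of_nonneg_right _ (by positivity)
    rw [← sq_abs]
    nlinarith
  have hdoor : ∀ z j, dr z = some j → -(1 / 1000) ≤ (pl T ps z).1 ∧ (pl T ps z).1 ≤ 1 + 1 / 1000 ∧
      -(1 / 1000) ≤ (pl T ps z).2 ∧ (pl T ps z).2 ≤ 1 / 50 := by
    intro z j hz
    have hn : 1 ≤ n := by
      have := (T j 0).isLt
      omega
    have hM := m_pos j
    have hM0 : (0 : ℝ) < m := by linarith
    obtain ⟨hw0, hw1⟩ := wd_sq hn j
    have hD0 : 0 ≤ (j.val : ℝ) / m := by positivity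
    have hD1 : (j.val : ℝ) / m ≤ 1 := by
      rw [div_le_one hM0]
      exact_mod_cast j.isLt.le
    have hS : ∀ i, |slope ((j.val : ℝ) / m) (wdP n m) ((ps i : ℝ) / (n + 1))| ≤ 11 / 10 :=
      fun i => slope_abs hD0 hD1 (hX i).1 (hX i).2 hw0 hw1
    obtain ⟨h1, h2, h3⟩ := own_bd T j (gamP n) (sgP m) (muP m)
      (fun i => slope ((j.val : ℝ) / m) (wdP n m) ((ps i : ℝ) / (n + 1))) (gam_pos n) (gam_le hn)
      (sg_pos j) (mu_pos j) hS z hz
    rw [pl_own T ps z j hz]
    have hsg := sg_le j
    have hsg0 := sg_pos j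
    have hmu := mu_le j
    have hmu0 := mu_pos j
    have h5 := abs_le.1 h1
    generalize (own T j (gamP n) (sgP m) (muP m)
      (fun i => slope ((j.val : ℝ) / m) (wdP n m) ((ps i : ℝ) / (n + 1))) z).1 = a at *
    generalize (own T j (gamP n) (sgP m) (muP m)
      (fun i => slope ((j.val : ℝ) / m) (wdP n m) ((ps i : ℝ) / (n + 1))) z).2 = b at *
    generalize (j.val : ℝ) / m = D at *
    unfold fr
    simp only
    have h6 : muP m * sgP m ≤ 1 / 200 * (1 / 10000) := mul_le_mul hmu hsg hsg0.le (by norm_num)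
    refine ⟨by linarith, by linarith, ?_, ?_⟩
    · nlinarith
    · nlinarith
  have hy : ∀ i i', ps i < ps i' → X i ^ 2 / 100 + X i / 5 < X i' ^ 2 / 100 + X i' / 5 := by
    intro i i' h
    have h1 : X i < X i' := by
      simp only [hXd]
      exact div_lt_div_of_pos_right (by exact_mod_cast h) hn'
    have h2 := (hX i).1
    have h3 : 0 ≤ X i := h2
    nlinarith
  have hX0 : ∀ i, 0 ≤ X i ∧ X i ≤ 1 := hX
  refine ⟨?_, ?_, ?_⟩
  · obtain ⟨i', hi'⟩ : ∃ i' : Fin (n + 2), i' ≠ i := exists_ne i
    refine ⟨i', ?_, ?_, ?_⟩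
    · exact ⟨by simp, Or.inl (by simpa [adj0] using hi'.symm)⟩
    · rw [htop, hhel]
      intro h
      have h1 := congrArg Prod.fst h
      simp only at h1
      have := (hX0 i').1
      linarith
    · -- certificates
      have hbound : ∀ (z : Vx n m), (∀ k, z ≠ .hel k) → -5 ≤ (pl T ps z).1 := by
        intro z hz
        rcases hd : dr z with _ | j
        · cases z with
          | top k => rw [htop]; have := (hX0 k).1; simp only; linarith
          | hel k => exact absurd rfl (hz k)
          | _ => simp [dr] at hd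
        · have := (hdoor z j hd).1
          linarith
      have main : ∀ (i1 : Fin (n + 2)) (z : Vx n m), i1 ≠ i → (Gr T).Adj (.hel i1) z →
          ∃ c, 0 < aff c (pl T ps (.hel i)) ∧ aff c (pl T ps (.top i')) ≤ aff c (pl T ps (.hel i)) ∧
            aff c (pl T ps (.hel i1)) ≤ 0 ∧ aff c (pl T ps z) ≤ 0 := by
        intro i1 z hne hadj
        have e1 := hX0 i
        have e2 := hX0 i1
        have e3 := hX0 i'
        rcases lt_or_gt_of_ne (fun h => hne (hG.inj h) : ps i1 ≠ ps i) with h | h
        · have hyy := hy _ _ h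
          refine ⟨(-(1 + X i1 ^ 2 / 100 + X i1 / 5), 0, 1), ?_, ?_, ?_, ?_⟩
          · rw [hhel]; simp only [aff]; linarith
          · rw [hhel, htop]; simp only [aff]; nlinarith
          · rw [hhel]; simp only [aff]; linarith
          · rcases adj_hel hadj with ⟨k, rfl, -⟩ | ⟨j, s, rfl⟩
            · rw [htop]; simp only [aff]; nlinarith [hX0 k]
            · have := hdoor (.jam j s) j rfl
              simp only [aff]; nlinarith
        · have hyy := hy _ _ h
          refine ⟨(1 + X i1 ^ 2 / 100 + X i1 / 5 - 2, -(1 / 5), -1), ?_, ?_, ?_, ?_⟩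
          · rw [hhel]; simp only [aff]; linarith
          · rw [hhel, htop]; simp only [aff]; nlinarith
          · rw [hhel]; simp only [aff]; linarith
          · rcases adj_hel hadj with ⟨k, rfl, -⟩ | ⟨j, s, rfl⟩
            · rw [htop]; simp only [aff]; nlinarith [hX0 k]
            · have := hdoor (.jam j s) j rfl
              simp only [aff]; nlinarith
      intro x y hxy hx hy'
      by_cases h1 : ∃ k, x = .hel k
      · obtain ⟨k, rfl⟩ := h1
        exact main k y (fun h => hx (by rw [h])) hxy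
      · by_cases h2 : ∃ k, y = .hel k
        · obtain ⟨k, rfl⟩ := h2
          obtain ⟨c, c1, c2, c3, c4⟩ := main k x (fun h => hy' (by rw [h])) hxy.symm
          exact ⟨c, c1, c2, c4, c3⟩
        · push Not at h1 h2
          refine ⟨(-5, -1, 0), ?_, ?_, ?_, ?_⟩
          · rw [hhel]; simp only [aff]; norm_num
          · rw [hhel, htop]; simp only [aff]; linarith [(hX0 i').1]
          · have := hbound x h1
            simp only [aff]; linarith
          · have := hbound y h2
            simp only [aff]; linarith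
  · -- top i
    have e1 := hX0 i
    have hee : 0 < 1 / (2000 * ((n : ℝ) + 1) ^ 2) := by positivity
    have hee1 : 1 / (2000 * ((n : ℝ) + 1) ^ 2) ≤ 1 / 2000 := by
      apply one_div_le_one_div_of_le (by norm_num)
      nlinarith
    have hee2 : 20 * (1 / (2000 * ((n : ℝ) + 1) ^ 2)) = 1 / 100 * (1 / ((n : ℝ) + 1) ^ 2) := by
      field_simp
      norm_num
    set e : ℝ := 1 / (2000 * ((n : ℝ) + 1) ^ 2) with he
    refine ⟨(-1 - X i ^ 2 / 100 + 10 * e, X i / 50 + e, 1), ?_, ?_, ?_⟩
    · rw [hhel]; simp only [aff]; ring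
    · rw [htop]; simp only [aff]
      have : -1 - X i ^ 2 / 100 + 10 * e + (X i / 50 + e) * X i + 1 * (1 - X i ^ 2 / 100) =
        e * (X i + 10) := by ring
      rw [this]
      have := e1.1
      positivity
    · intro z hz
      rcases adj_hel hz with ⟨k, rfl, hk⟩ | ⟨j, s, rfl⟩
      · rw [htop]; simp only [aff]
        have h1 := hXne k i hk
        have h2 := hX0 k
        have : -1 - X i ^ 2 / 100 + 10 * e + (X i / 50 + e) * X k + 1 * (1 - X k ^ 2 / 100) =
          -(1 / 100) * (X k - X i) ^ 2 + e * (X k + 10) := by ring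
        rw [this]
        nlinarith
      · have := hdoor (.jam j s) j rfl
        simp only [aff]
        nlinarith
  · intro i' hne
    have e1 := hX0 i
    have e2 := hX0 i'
    rcases lt_or_gt_of_ne (fun h => hne (hG.inj h) : ps i' ≠ ps i) with h | h
    · have hyy := hy _ _ h
      refine ⟨(1 + X i ^ 2 / 100 + X i / 5 - 2, -(1 / 5), -1), ?_, ?_, ?_⟩
      · rw [hhel]; simp only [aff]; ring
      · rw [hhel]; simp only [aff]; linarith
      · intro z hz
        rcases adj_hel hz with ⟨k, rfl, hk⟩ | ⟨j, s, rfl⟩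
        · rw [htop]; simp only [aff]; nlinarith [hX0 k]
        · have := hdoor (.jam j s) j rfl
          simp only [aff]; nlinarith
    · have hyy := hy _ _ h
      refine ⟨(-(1 + X i ^ 2 / 100 + X i / 5), 0, 1), ?_, ?_, ?_⟩
      · rw [hhel]; simp only [aff]; ring
      · rw [hhel]; simp only [aff]; linarith
      · intro z hz
        rcases adj_hel hz with ⟨k, rfl, hk⟩ | ⟨j, s, rfl⟩
        · rw [htop]; simp only [aff]; nlinarith [hX0 k]
        · have := hdoor (.jam j s) j rfl
          simp only [aff]; nlinarith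

end Pool.Agent.SO.H24
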