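import Pool.Agent.Helper88_SO.Tools

set_option autoImplicit false
set_option linter.unusedVariables false

namespace Pool.Agent.SO.H24

open Pool.Agent.SO

theorem mem_seg {x y p : Pt} (h : p ∈ segment ℝ x y) :
    ∃ a b : ℝ, 0 ≤ a ∧ 0 ≤ b ∧ a + b = 1 ∧ a • x + b • y = p := h

theorem aff_le_of_seg {c : ℝ × ℝ × ℝ} {x y p : Pt} (hx : aff c x ≤ 0) (hy : aff c y ≤ 0)
    (h : p ∈ segment ℝ x y) : aff c p ≤ 0 := by
  obtain ⟨a, b, ha, hb, hab, rfl⟩ := h
  rw [aff_aff c x y a b hab]
  nlinarith

theorem aff_ray (c : ℝ × ℝ × ℝ) (o d : Pt) (t : ℝ) :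
    aff c (o + t • d) = aff c o + t * (c.2.1 * d.1 + c.2.2 * d.2) := by
  simp only [aff, Prod.fst_add, Prod.snd_add, Prod.smul_fst, Prod.smul_snd, smul_eq_mul]
  ring

theorem loc_aff (D wd : ℝ) (p q : Pt) (a b : ℝ) (h : a + b = 1) :
    loc D wd (a • p + b • q) = a • loc D wd p + b • loc D wd q := by
  obtain rfl : a = 1 - b := by linarith
  ext
  · simp only [loc, Prod.fst_add, Prod.smul_fst, smul_eq_mul]; ring
  · simp only [loc, Prod.snd_add, Prod.fst_add, Prod.smul_fst, Prod.smul_snd, smul_eq_mul]; ring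

theorem ray : RayStmt := by
  refine ⟨?_, ?_, ?_⟩
  · intro V G P o d h hd
    refine ⟨hd, ?_⟩
    intro t ht x y hxy hmem
    obtain ⟨c, h0, h1, hx, hy⟩ := h x y hxy
    have h2 := aff_le_of_seg hx hy hmem
    rw [aff_ray] at h2
    have := mul_pos ht h1
    linarith
  · intro V G P o d g z hfree hcross
    have key : Wit G P g z := by
      set f : Pt → ℝ := fun p => d.1 * (p.2 - o.2) - d.2 * (p.1 - o.1) with hf
      have hne : f (P z) - f (P g) ≠ 0 := by
        rcases hcross with ⟨h1, h2, h3⟩ | ⟨h1, h2, h3⟩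
        · have : 0 < f (P z) - f (P g) := by simp only [hf]; linarith
          exact this.ne'
        · have : f (P z) - f (P g) < 0 := by simp only [hf]; linarith
          exact this.ne
      have hw : (f (P z) / (f (P z) - f (P g))) • P g + (-f (P g) / (f (P z) - f (P g))) • P z =
          o + (ori (P g) (P z) o / (f (P z) - f (P g))) • d := by
        ext
        · simp only [Prod.fst_add, Prod.smul_fst, smul_eq_mul]
          field_simp
          simp only [hf, ori]; ring
        · simp only [Prod.snd_add, Prod.smul_snd, smul_eq_mul]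
          field_simp
          simp only [hf, ori]; ring
      have ht0 : 0 < ori (P g) (P z) o / (f (P z) - f (P g)) := by
        rcases hcross with ⟨h1, h2, h3⟩ | ⟨h1, h2, h3⟩
        · exact div_pos h3 (by simp only [hf]; linarith)
        · exact div_pos_of_neg_of_neg h3 (by simp only [hf]; linarith)
      refine ⟨o + (ori (P g) (P z) o / (f (P z) - f (P g))) • d, ?_, d, hfree.1, ?_⟩
      · rw [← hw]
        refine ⟨_, _, ?_, ?_, ?_, rfl⟩
        · rcases hcross with ⟨h1, h2, h3⟩ | ⟨h1, h2, h3⟩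
          · exact (div_pos h2 (by simp only [hf]; linarith)).le
          · exact (div_pos_of_neg_of_neg h2 (by simp only [hf]; linarith)).le
        · rcases hcross with ⟨h1, h2, h3⟩ | ⟨h1, h2, h3⟩
          · exact (div_pos (by simp only [hf]; linarith) (by simp only [hf]; linarith)).le
          · exact (div_pos_of_neg_of_neg (by simp only [hf]; linarith)
              (by simp only [hf]; linarith)).le
        · field_simp
          ring
      · intro t ht x y hxy
        rw [add_assoc, ← add_smul]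
        exact hfree.2 _ (by linarith) x y hxy
    refine ⟨key, ?_⟩
    obtain ⟨w, hw, d', hd', h⟩ := key
    exact ⟨w, by rw [segment_symm]; exact hw, d', hd', h⟩
  · intro V G P D wd u v h
    obtain ⟨w, hw, d, hd, h⟩ := h
    obtain ⟨a, b, ha, hb, hab, rfl⟩ := hw
    refine ⟨a • P u + b • P v, ⟨a, b, ha, hb, hab, rfl⟩, (d.1, d.2 + D * d.1 / 50), ?_, ?_⟩
    · intro h0
      apply hd
      have h1 := congrArg Prod.fst h0
      have h2 := congrArg Prod.snd h0
      simp only [Prod.fst_zero, Prod.snd_zero] at h1 h2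
      rw [h1] at h2
      ext
      · exact h1
      · simp only [Prod.snd_zero]; linarith
    · intro t ht x y hxy hmem
      apply h t ht x y hxy
      obtain ⟨a', b', ha', hb', hab', he⟩ := hmem
      refine ⟨a', b', ha', hb', hab', ?_⟩
      simp only
      rw [← loc_aff D wd _ _ a' b' hab', he, ← loc_aff D wd _ _ a b hab]
      ext
      · simp only [loc, Prod.fst_add, Prod.smul_fst, smul_eq_mul]; ring
      · simp only [loc, Prod.snd_add, Prod.fst_add, Prod.smul_fst, Prod.smul_snd, smul_eq_mul]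
        ring

open Filter Topology in
theorem exp : ExpStmt := by
  intro V _ G P b n v hexp hout
  obtain ⟨hbn, hne, hexp⟩ := hexp
  obtain ⟨c, hcb, hcv, hc⟩ := hout
  have key : Wit G P b v := by
    have hev : ∀ᶠ ε : ℝ in 𝓝[>] 0, ∀ x y : V, G.Adj x y → x ≠ b → y ≠ b →
        ∃ c', 0 < aff c' (P b) + ε * (aff c' (P v) - aff c' (P b)) ∧
          aff c' (P n) ≤ aff c' (P b) ∧ aff c' (P x) ≤ 0 ∧ aff c' (P y) ≤ 0 := by
      rw [eventually_all]
      intro x
      rw [eventually_all]
      intro y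
      by_cases hxy : G.Adj x y ∧ x ≠ b ∧ y ≠ b
      · obtain ⟨h1, h2, h3⟩ := hxy
        obtain ⟨c', k1, k2, k3, k4⟩ := hexp x y h1 h2 h3
        have ht : Tendsto (fun ε : ℝ => aff c' (P b) + ε * (aff c' (P v) - aff c' (P b))) (𝓝[>] 0)
            (𝓝 (aff c' (P b) + 0 * (aff c' (P v) - aff c' (P b)))) := by
          apply Tendsto.mono_left _ nhdsWithin_le_nhds
          apply Continuous.tendsto
          fun_prop
        rw [zero_mul, add_zero] at ht
        filter_upwards [ht.eventually (lt_mem_nhds k1)] with ε hε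
        intro _ _ _
        exact ⟨c', hε, k2, k3, k4⟩
      · filter_upwards with ε h1 h2 h3
        exact absurd ⟨h1, h2, h3⟩ hxy
    have h1 : ∀ᶠ ε : ℝ in 𝓝[>] 0, 0 < ε := eventually_mem_nhdsWithin
    have h2 : ∀ᶠ ε : ℝ in 𝓝[>] 0, ε < 1 :=
      nhdsWithin_le_nhds (gt_mem_nhds one_pos)
    obtain ⟨ε, ⟨hε, hε0⟩, hε1⟩ := ((hev.and h1).and h2).exists
    refine ⟨(1 - ε) • P b + ε • P v, ⟨1 - ε, ε, by linarith, hε0.le, by ring, rfl⟩, P b - P n,
      sub_ne_zero.2 hne, ?_⟩
    have hval : ∀ (c' : ℝ × ℝ × ℝ) (t : ℝ), aff c' ((1 - ε) • P b + ε • P v + t • (P b - P n)) =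
        aff c' (P b) + ε * (aff c' (P v) - aff c' (P b)) + t * (aff c' (P b) - aff c' (P n)) := by
      intro c' t
      simp only [aff, Prod.fst_add, Prod.snd_add, Prod.smul_fst, Prod.smul_snd, smul_eq_mul,
        Prod.fst_sub, Prod.snd_sub]
      ring
    intro t ht x y hxy hmem
    by_cases hb : x = b ∨ y = b
    · have hx : aff c (P x) ≤ 0 := by
        rcases hb with rfl | rfl
        · exact hcb.le
        · exact hc x hxy.symm
      have hy : aff c (P y) ≤ 0 := by
        rcases hb with rfl | rfl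
        · exact hc y hxy
        · exact hcb.le
      have h3 := aff_le_of_seg hx hy hmem
      rw [hval] at h3
      have h4 := hc n hbn
      rw [hcb] at h3
      have h5 := mul_pos hε0 hcv
      nlinarith
    · push Not at hb
      obtain ⟨c', k1, k2, k3, k4⟩ := hε x y hxy hb.1 hb.2
      have h3 := aff_le_of_seg k3 k4 hmem
      rw [hval] at h3
      nlinarith
  refine ⟨key, ?_⟩
  obtain ⟨w, hw, d', hd', h⟩ := key
  exact ⟨w, by rw [segment_symm]; exact hw, d', hd', h⟩

end Pool.Agent.SO.H24
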