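import Pool.Agent.Helper88_SO.Tools

set_option autoImplicit false
set_option linter.unusedVariables false

namespace Pool.Agent.SO.H24

open Pool.Agent.SO

/-! ### numerical parameters -/

theorem m_pos {m : ℕ} (j : Fin m) : (1 : ℝ) ≤ m := by
  have := j.isLt
  exact_mod_cast (by omega : 1 ≤ m)

theorem sg_pos {m : ℕ} (j : Fin m) : 0 < sgP m := by
  have := m_pos j
  unfold sgP
  positivity

theorem sg_mul {m : ℕ} (j : Fin m) : sgP m * (10000 * (m : ℝ) ^ 2) = 1 := by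
  have := m_pos j
  unfold sgP
  field_simp

theorem sg_le {m : ℕ} (j : Fin m) : sgP m ≤ 1 / 10000 := by
  have h1 := m_pos j
  have h2 := sg_mul j
  have h3 := sg_pos j
  nlinarith [mul_nonneg h3.le (by nlinarith : (0 : ℝ) ≤ (m : ℝ) ^ 2 - 1)]

theorem sg_le_m {m : ℕ} (j : Fin m) : sgP m ≤ 1 / 10000 * (1 / m) := by
  have h1 := m_pos j
  unfold sgP
  rw [div_mul_div_comm, one_mul]
  apply one_div_le_one_div_of_le
  · positivity
  · nlinarith

theorem mu_pos {m : ℕ} (j : Fin m) : 0 < muP m := by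
  have := m_pos j
  unfold muP
  positivity

theorem mu_le {m : ℕ} (j : Fin m) : muP m ≤ 1 / 200 := by
  have h1 := m_pos j
  unfold muP
  apply one_div_le_one_div_of_le <;> linarith

theorem gam_pos (n : ℕ) : 0 < gamP n := by unfold gamP; positivity

theorem gam_le {n : ℕ} (hn : 1 ≤ n) : gamP n ≤ 7 / 20 := by
  have : (1 : ℝ) ≤ n := by exact_mod_cast hn
  unfold gamP
  rw [div_le_div_iff₀ (by positivity) (by norm_num)]
  linarith

theorem wd_pos {n m : ℕ} (j : Fin m) : 0 < wdP n m := by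
  have h1 := sg_pos j
  have h2 := gam_pos n
  unfold wdP
  positivity

theorem wd_le {n m : ℕ} (hn : 1 ≤ n) (j : Fin m) : wdP n m ≤ 1 / 1000000 := by
  have h1 := sg_pos j
  have h2 := gam_pos n
  have h3 := sg_le j
  have h4 := gam_le hn
  unfold wdP
  have h5 : sgP m * gamP n ≤ 1 / 10000 * (7 / 20) := by
    apply mul_le_mul h3 h4 h2.le (by norm_num)
  nlinarith

theorem wd_sq {n m : ℕ} (hn : 1 ≤ n) (j : Fin m) :
    0 ≤ wdP n m ^ 2 ∧ wdP n m ^ 2 ≤ 1 / 1000000 := by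
  have h1 := wd_pos (n := n) j
  have h2 := wd_le hn j
  constructor
  · positivity
  · nlinarith

/-! ### the slope function -/

/-- the denominator of the slope -/
noncomputable def den (D wd x : ℝ) : ℝ :=
  1 - x ^ 2 / 100 - D ^ 2 / 100 - wd ^ 2 / 400 - D * (x - D) / 50

theorem den_bd {D wd x : ℝ} (hD : 0 ≤ D) (hD1 : D ≤ 1) (hx : 0 ≤ x) (hx1 : x ≤ 1)
    (hw : 0 ≤ wd ^ 2) (hw1 : wd ^ 2 ≤ 1 / 1000000) : 24 / 25 ≤ den D wd x ∧ den D wd x ≤ 51 / 50 := by
  unfold den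
  constructor
  · nlinarith [mul_nonneg hD hx, mul_nonneg hD (sub_nonneg.2 hx1), mul_nonneg hx (sub_nonneg.2 hx1),
      mul_nonneg hD (sub_nonneg.2 hD1)]
  · nlinarith [mul_nonneg hD hx, mul_nonneg hD (sub_nonneg.2 hx1), mul_nonneg hx (sub_nonneg.2 hx1),
      mul_nonneg hD (sub_nonneg.2 hD1)]

theorem slope_eq (D wd x : ℝ) : slope D wd x = (x - D) / den D wd x := rfl

theorem slope_abs {D wd x : ℝ} (hD : 0 ≤ D) (hD1 : D ≤ 1) (hx : 0 ≤ x) (hx1 : x ≤ 1)
    (hw : 0 ≤ wd ^ 2) (hw1 : wd ^ 2 ≤ 1 / 1000000) : |slope D wd x| ≤ 11 / 10 := by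
  obtain ⟨h1, h2⟩ := den_bd hD hD1 hx hx1 hw hw1
  have h0 : 0 < den D wd x := by linarith
  rw [slope_eq, abs_div, abs_of_pos h0, div_le_iff₀ h0, abs_le]
  constructor <;> nlinarith

theorem slope_gap {D wd x y : ℝ} (hD : 0 ≤ D) (hD1 : D ≤ 1) (hx : 0 ≤ x) (hx1 : x ≤ 1)
    (hy : 0 ≤ y) (hy1 : y ≤ 1)
    (hw : 0 ≤ wd ^ 2) (hw1 : wd ^ 2 ≤ 1 / 1000000) (hxy : x ≤ y) :
    7 / 10 * (y - x) ≤ slope D wd y - slope D wd x := by
  obtain ⟨h1, h2⟩ := den_bd hD hD1 hx hx1 hw hw1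
  obtain ⟨h3, h4⟩ := den_bd hD hD1 hy hy1 hw hw1
  have h0 : 0 < den D wd x := by linarith
  have h0' : 0 < den D wd y := by linarith
  rw [slope_eq, slope_eq, div_sub_div _ _ h0'.ne' h0.ne', le_div_iff₀ (by positivity)]
  have hid : (y - D) * den D wd x - den D wd y * (x - D) =
      (y - x) * (1 + D ^ 2 / 100 - wd ^ 2 / 400 - (-(x * y) + D * (x + y) + 2 * D ^ 2) / 100) := by
    unfold den; ring
  rw [hid]
  have hprod : den D wd y * den D wd x ≤ 51 / 50 * (51 / 50) := by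
    apply mul_le_mul h4 h2 h0.le (by norm_num)
  have hyx : 0 ≤ y - x := by linarith
  have hc : 9 / 10 ≤ 1 + D ^ 2 / 100 - wd ^ 2 / 400 - (-(x * y) + D * (x + y) + 2 * D ^ 2) / 100 := by
    nlinarith [mul_nonneg hD (sub_nonneg.2 hx1), mul_nonneg hD (sub_nonneg.2 hy1),
      mul_nonneg hx hy, mul_nonneg hD (sub_nonneg.2 hD1)]
  calc 7 / 10 * (y - x) * (den D wd y * den D wd x)
      ≤ 7 / 10 * (y - x) * (51 / 50 * (51 / 50)) := by
        apply mul_le_mul_of_nonneg_left hprod (by positivity)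
    _ ≤ (y - x) * (9 / 10) := by nlinarith
    _ ≤ _ := mul_le_mul_of_nonneg_left hc hyx

/-! ### own vertices -/

theorem piP_bd {rho s y B : ℝ} (hrho : 0 < rho) (hs : |s| ≤ B * y) (hy : 1 ≤ y) :
    |(piP rho s y).1| ≤ B * rho ∧ -rho ≤ (piP rho s y).2 ∧ (piP rho s y).2 ≤ 0 := by
  have hy0 : 0 < y := by linarith
  unfold piP
  simp only
  refine ⟨?_, ?_, ?_⟩
  · rw [abs_neg, abs_div, abs_mul, abs_of_pos hrho, abs_of_pos hy0, div_le_iff₀ hy0]
    nlinarith
  · apply neg_le_neg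
    rw [div_le_iff₀ hy0]
    nlinarith
  · rw [neg_nonpos]; positivity

theorem own_bd {n m : ℕ} (T : Fin m → Fin 3 → Fin n) (j : Fin m) (gam sg mu : ℝ)
    (S : Fin (n + 2) → ℝ) (hg : 0 < gam) (hg1 : gam ≤ 7 / 20) (hs : 0 < sg) (hmu : 0 < mu)
    (hS : ∀ i, |S i| ≤ 11 / 10) (z : Vx n m) (hz : dr z = some j) :
    |(own T j gam sg mu S z).1| ≤ 2 * sg ∧ -(sg / 4) ≤ (own T j gam sg mu S z).2 ∧
      (own T j gam sg mu S z).2 ≤ mu * sg := by
  have hrho : 0 < sg / 100 := by positivity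
  have hms : 0 < mu * sg := by positivity
  have hwd : 0 < sg / 100 * gam / 20000 / 2 := by positivity
  have hwd1 : sg / 100 * gam / 20000 / 2 ≤ 2 * sg := by nlinarith
  have fin : ∀ (s y : ℝ), |s| ≤ 3 * y → 1 ≤ y → |(piP (sg / 100) s y).1| ≤ 2 * sg ∧
      -(sg / 4) ≤ (piP (sg / 100) s y).2 ∧ (piP (sg / 100) s y).2 ≤ mu * sg := by
    intro s y h1 h2
    obtain ⟨k1, k2, k3⟩ := piP_bd hrho h1 h2
    refine ⟨by linarith, by linarith, by linarith⟩
  cases z with
  | top i => simp [dr] at hz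
  | hel i => simp [dr] at hz
  | jam j' s =>
    cases s
    · simp only [own]
      refine ⟨?_, by linarith, by linarith⟩
      rw [abs_neg, abs_of_pos hwd]; exact hwd1
    · simp only [own]
      refine ⟨?_, by linarith, by linarith⟩
      rw [abs_of_pos hwd]; exact hwd1
  | hj j' s =>
    cases s
    · simp only [own]
      refine ⟨?_, by linarith, le_refl _⟩
      rw [abs_neg, abs_of_pos (by positivity)]
    · simp only [own]
      refine ⟨?_, le_refl _, by linarith⟩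
      rw [abs_neg, abs_of_pos hs]; linarith
  | pr j' k =>
    simp only [own]
    have h1 := abs_le.1 (hS (el T j k))
    apply fin
    · rw [abs_le]; constructor <;> nlinarith
    · nlinarith
  | hc j' k =>
    simp only [own]
    have h1 := abs_le.1 (hS (el T j k))
    set s := S (el T j k) with hsd
    have hs2 : s ^ 2 ≤ 121 / 100 := by nlinarith
    have hs3 : 0 ≤ s ^ 2 := sq_nonneg s
    apply fin
    · unfold aC
      rw [abs_le]; constructor <;> nlinarith
    · unfold aC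
      nlinarith
  | hd j' s =>
    cases s
    · simp only [own]
      apply fin <;> norm_num
    · simp only [own]
      apply fin <;> norm_num
  | ho j' s t =>
    have h1 := abs_le.1 (hS (el T j (kk t)))
    have h2 := abs_le.1 (hS (el T j 1))
    cases s
    · simp only [own]
      apply fin
      · rw [abs_le]
        constructor
        · rcases min_choice (S (el T j (kk t))) (S (el T j 1)) with h | h <;> rw [h] <;> linarith
        · rcases min_choice (S (el T j (kk t))) (S (el T j 1)) with h | h <;> rw [h] <;> linarith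
      · norm_num
    · simp only [own]
      apply fin
      · rw [abs_le]
        constructor
        · rcases max_choice (S (el T j (kk t))) (S (el T j 1)) with h | h <;> rw [h] <;> linarith
        · rcases max_choice (S (el T j (kk t))) (S (el T j 1)) with h | h <;> rw [h] <;> linarith
      · norm_num

theorem pl_own {n m : ℕ} (T : Fin m → Fin 3 → Fin n) (ps : Fin (n + 2) → ℕ) (z : Vx n m)
    (j : Fin m) (hz : dr z = some j) :
    pl T ps z = fr ((j.val : ℝ) / m) (wdP n m)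
      (own T j (gamP n) (sgP m) (muP m)
        (fun i => slope ((j.val : ℝ) / m) (wdP n m) ((ps i : ℝ) / (n + 1))) z).1
      (own T j (gamP n) (sgP m) (muP m)
        (fun i => slope ((j.val : ℝ) / m) (wdP n m) ((ps i : ℝ) / (n + 1))) z).2 := by
  cases z <;> simp only [dr, Option.some.injEq, reduceCtorEq] at hz <;> subst hz <;> rfl

theorem loc_fr (D wd u v : ℝ) : loc D wd (fr D wd u v) = (u, v) := by
  unfold loc fr
  ext
  · simp only; ring
  · simp only; ring

theorem loc_fr' (D D' wd u v : ℝ) : loc D wd (fr D' wd u v) =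
    (D' - D + u, (D' - D) ^ 2 / 100 + (D' - D) * u / 50 + v) := by
  unfold loc fr
  ext
  · simp only; ring
  · simp only; ring

theorem far_bd {sg mu Δ a b M : ℝ} (hs : 0 < sg) (hs1 : sg ≤ 1 / 10000) (hM : 1 ≤ M)
    (hsM : sg * (10000 * M ^ 2) = 1) (hmuM : mu * (200 * M) = 1) (hmu : 0 < mu) (hmu1 : mu ≤ 1 / 200)
    (hΔ : 1 ≤ |Δ| * M) (hΔ1 : |Δ| ≤ 1) (ha : |a| ≤ 2 * sg) (hb : -(sg / 4) ≤ b)
    (hb1 : b ≤ mu * sg) :
    0 < Δ ^ 2 / 100 + Δ * a / 50 + b ∧ 50 * (Δ ^ 2 / 100 + Δ * a / 50 + b) ≤ |Δ + a| ∧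
    mu * |Δ + a| ≤ Δ ^ 2 / 100 + Δ * a / 50 + b ∧ 1000 * sg ≤ |Δ + a| ∧ |Δ + a| ≤ 2 := by
  have h0 : 0 ≤ |Δ| := abs_nonneg _
  have hsq : Δ ^ 2 = |Δ| ^ 2 := (sq_abs Δ).symm
  have hΔa : |Δ * a| ≤ |Δ| * (2 * sg) := by
    rw [abs_mul]; exact mul_le_mul_of_nonneg_left ha h0
  obtain ⟨hΔa1, hΔa2⟩ := abs_le.1 hΔa
  have hsum1 : |Δ + a| ≤ |Δ| + 2 * sg := (abs_add_le _ _).trans (by linarith)
  have hsum2 : |Δ| - 2 * sg ≤ |Δ + a| := by
    have := abs_sub_abs_le_abs_sub Δ (-a)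
    rw [abs_neg, sub_neg_eq_add] at this
    linarith
  have hM0 : 0 < M := by linarith
  -- Δ^2 ≥ 10000 sg
  have k1 : 10000 * sg ≤ |Δ| ^ 2 := by
    have e1 : 1 ≤ (|Δ| * M) ^ 2 := by nlinarith
    have e2 : 0 ≤ ((|Δ| * M) ^ 2 - 1) * sg * 10000 := by
      apply mul_nonneg (mul_nonneg (by linarith) hs.le) (by norm_num)
    have e3 : ((|Δ| * M) ^ 2 - 1) * sg * 10000 = |Δ| ^ 2 * (sg * (10000 * M ^ 2)) - 10000 * sg := by
      ring
    rw [e3, hsM] at e2
    linarith
  -- |Δ| ≥ 10000 sg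
  have k2 : 10000 * sg ≤ |Δ| := by nlinarith
  -- mu ≤ |Δ| / 200
  have k3 : mu ≤ |Δ| / 200 := by
    have e1 : 0 ≤ (|Δ| * M - 1) * (mu * 200) := mul_nonneg (by linarith) (by linarith)
    have e2 : (|Δ| * M - 1) * (mu * 200) = |Δ| * (mu * (200 * M)) - mu * 200 := by ring
    rw [e2, hmuM] at e1
    linarith
  have k4 : |Δ| * sg ≤ sg := by nlinarith
  have k5 : mu * sg ≤ 1 / 200 * sg := mul_le_mul_of_nonneg_right hmu1 hs.le
  rw [hsq]
  refine ⟨?_, ?_, ?_, ?_, ?_⟩
  · nlinarith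
  · nlinarith
  · have e1 : mu * |Δ + a| ≤ mu * (|Δ| + 2 * sg) := mul_le_mul_of_nonneg_left hsum1 hmu.le
    have e2 : mu * |Δ| ≤ |Δ| / 200 * |Δ| := mul_le_mul_of_nonneg_right k3 h0
    nlinarith
  · linarith
  · linarith

theorem view : ViewStmt := by
  intro n m T ps hG j
  have hn : 1 ≤ n := by
    have := (T j 0).isLt
    omega
  have hn' : (0 : ℝ) < (n : ℝ) + 1 := by positivity
  have hM := m_pos j
  have hM0 : (0 : ℝ) < m := by linarith
  obtain ⟨hw0, hw1⟩ := wd_sq hn j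
  have hDb : ∀ j : Fin m, 0 ≤ (j.val : ℝ) / m ∧ (j.val : ℝ) / m ≤ 1 := by
    intro j
    constructor
    · positivity
    · rw [div_le_one hM0]
      exact_mod_cast j.isLt.le
  have hps : ∀ i, ps i ≤ n + 1 := by
    intro i
    rcases lt_trichotomy i.val n with h | h | h
    · have := hG.lt i h; omega
    · have := hG.inf i h; omega
    · have := hG.last i (by have := i.isLt; omega); omega
  have hX : ∀ i, 0 ≤ (ps i : ℝ) / (n + 1) ∧ (ps i : ℝ) / (n + 1) ≤ 1 := by
    intro i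
    constructor
    · positivity
    · rw [div_le_one hn']
      exact_mod_cast hps i
  have hSabs : ∀ (j : Fin m) i, |slope ((j.val : ℝ) / m) (wdP n m) ((ps i : ℝ) / (n + 1))| ≤ 11 / 10 :=
    fun j i => slope_abs (hDb j).1 (hDb j).2 (hX i).1 (hX i).2 hw0 hw1
  have hgap : ∀ i i', ps i < ps i' →
      gamP n ≤ slope ((j.val : ℝ) / m) (wdP n m) ((ps i' : ℝ) / (n + 1)) -
        slope ((j.val : ℝ) / m) (wdP n m) ((ps i : ℝ) / (n + 1)) := by
    intro i i' h
    have h1 : (ps i : ℝ) + 1 ≤ ps i' := by exact_mod_cast h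
    have h2 : (ps i : ℝ) / (n + 1) ≤ (ps i' : ℝ) / (n + 1) :=
      div_le_div_of_nonneg_right (by linarith) hn'.le
    have h3 := slope_gap (wd := wdP n m) (hDb j).1 (hDb j).2 (hX i).1 (hX i).2 (hX i').1 (hX i').2
      hw0 hw1 h2
    refine le_trans ?_ h3
    have h4 : (1 : ℝ) / (n + 1) ≤ (ps i' : ℝ) / (n + 1) - (ps i : ℝ) / (n + 1) := by
      rw [← sub_div]
      exact div_le_div_of_nonneg_right (by linarith) hn'.le
    have h5 : gamP n = 7 / 10 * (1 / ((n : ℝ) + 1)) := by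
      unfold gamP; field_simp
    rw [h5]
    linarith
  have hmono : ∀ i i', ps i < ps i' →
      slope ((j.val : ℝ) / m) (wdP n m) ((ps i : ℝ) / (n + 1)) <
        slope ((j.val : ℝ) / m) (wdP n m) ((ps i' : ℝ) / (n + 1)) := by
    intro i i' h
    have := hgap i i' h
    have := gam_pos n
    linarith
  have hQtop : ∀ i, loc ((j.val : ℝ) / m) (wdP n m) (pl T ps (.top i)) =
      ((ps i : ℝ) / (n + 1) - (j.val : ℝ) / m,
        den ((j.val : ℝ) / m) (wdP n m) ((ps i : ℝ) / (n + 1))) := by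
    intro i
    unfold loc den pl
    rfl
  have hel : ∀ i, loc ((j.val : ℝ) / m) (wdP n m) (pl T ps (.hel i)) =
      (-10 - (j.val : ℝ) / m, 1 + ((ps i : ℝ) / (n + 1)) ^ 2 / 100 + ((ps i : ℝ) / (n + 1)) / 5
        - ((j.val : ℝ) / m) ^ 2 / 100 - (wdP n m) ^ 2 / 400 -
          ((j.val : ℝ) / m) * (-10 - (j.val : ℝ) / m) / 50) := by
    intro i
    unfold loc pl
    rfl
  have hfar : ∀ z j', dr z = some j' → ∃ a b : ℝ, |a| ≤ 2 * sgP m ∧ -(sgP m / 4) ≤ b ∧
      b ≤ muP m * sgP m ∧ loc ((j.val : ℝ) / m) (wdP n m) (pl T ps z) =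
        ((j'.val : ℝ) / m - (j.val : ℝ) / m + a,
          ((j'.val : ℝ) / m - (j.val : ℝ) / m) ^ 2 / 100 +
            ((j'.val : ℝ) / m - (j.val : ℝ) / m) * a / 50 + b) := by
    intro z j' hz
    obtain ⟨h1, h2, h3⟩ := own_bd T j' (gamP n) (sgP m) (muP m)
      (fun i => slope ((j'.val : ℝ) / m) (wdP n m) ((ps i : ℝ) / (n + 1))) (gam_pos n) (gam_le hn)
      (sg_pos j) (mu_pos j) (hSabs j') z hz
    refine ⟨_, _, h1, h2, h3, ?_⟩
    rw [pl_own T ps z j' hz, loc_fr']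
  have hΔ : ∀ j' : Fin m, j' ≠ j → 1 ≤ |(j'.val : ℝ) / m - (j.val : ℝ) / m| * m ∧
      |(j'.val : ℝ) / m - (j.val : ℝ) / m| ≤ 1 := by
    intro j' hj'
    constructor
    · rw [← sub_div, abs_div, abs_of_pos hM0, div_mul_cancel₀ _ hM0.ne']
      have h1 : (j'.val : ℤ) - (j.val : ℤ) ≠ 0 := by
        intro h0
        apply hj'
        apply Fin.ext
        omega
      have h2 := Int.one_le_abs h1
      exact_mod_cast h2
    · have h1 := hDb j
      have h2 := hDb j'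
      rw [abs_le]
      constructor <;> linarith
  have hsM := sg_mul j
  have hmuM : muP m * (200 * (m : ℝ)) = 1 := by
    unfold muP; field_simp
  have hfar2 : ∀ z j', dr z = some j' → j' ≠ j → ∃ a : ℝ, |a| ≤ 2 * sgP m ∧
      (loc ((j.val : ℝ) / m) (wdP n m) (pl T ps z)).1 = (j'.val : ℝ) / m - (j.val : ℝ) / m + a ∧
      (0 < (loc ((j.val : ℝ) / m) (wdP n m) (pl T ps z)).2 ∧
        50 * (loc ((j.val : ℝ) / m) (wdP n m) (pl T ps z)).2 ≤
          |(loc ((j.val : ℝ) / m) (wdP n m) (pl T ps z)).1| ∧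
        muP m * |(loc ((j.val : ℝ) / m) (wdP n m) (pl T ps z)).1| ≤
          (loc ((j.val : ℝ) / m) (wdP n m) (pl T ps z)).2 ∧
        1000 * sgP m ≤ |(loc ((j.val : ℝ) / m) (wdP n m) (pl T ps z)).1| ∧
        |(loc ((j.val : ℝ) / m) (wdP n m) (pl T ps z)).1| ≤ 2) := by
    intro z j' hz hj'
    obtain ⟨a, b, h1, h2, h3, h4⟩ := hfar z j' hz
    rw [h4]
    exact ⟨a, h1, rfl, far_bd (sg_pos j) (sg_le j) hM hsM hmuM (mu_pos j) (mu_le j) (hΔ j' hj').1
      (hΔ j' hj').2 h1 h2 h3⟩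
  have hsm := sg_le_m j
  constructor
  · exact gam_pos n
  · exact gam_le hn
  · exact sg_pos j
  · exact sg_le j
  · exact mu_pos j
  · exact mu_le j
  · exact hSabs j
  · intro i i' hne
    rcases lt_or_gt_of_ne (fun h => hne (hG.inj h) : ps i ≠ ps i') with h | h
    · have := hgap i i' h
      rw [abs_sub_comm]
      exact this.trans (le_abs_self _)
    · exact (hgap i' i h).trans (le_abs_self _)
  · rcases hG.mid j with ⟨h1, h2⟩ | ⟨h1, h2⟩
    · exact Or.inl ⟨hmono _ _ h1, hmono _ _ h2⟩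
    · exact Or.inr ⟨hmono _ _ h1, hmono _ _ h2⟩
  · intro k hk
    apply hmono
    have e1 : (el T j k).val < n := by
      unfold el
      rw [dif_pos hk]
      exact (T j ⟨k.val, hk⟩).isLt
    have e2 : (el T j 3).val = n := by
      unfold el
      rfl
    have := hG.lt _ e1
    have := hG.inf _ e2
    omega
  · apply hmono
    have e2 : (el T j 3).val = n := rfl
    have e3 : (el T j 4).val = n + 1 := rfl
    have := hG.inf _ e2
    have := hG.last _ e3
    omega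
  · intro i
    rw [hQtop]
    simp only
    have h1 := hDb j
    have h2 := hX i
    rw [abs_le]
    constructor <;> linarith
  · intro i
    rw [hQtop]
    exact den_bd (hDb j).1 (hDb j).2 (hX i).1 (hX i).2 hw0 hw1
  · intro i
    rw [hQtop]
    simp only
    have h1 := (den_bd (wd := wdP n m) (hDb j).1 (hDb j).2 (hX i).1 (hX i).2 hw0 hw1).1
    rw [slope_eq, div_mul_cancel₀]
    linarith
  · rw [hQtop]
    simp only
    have h1 := hG.last (Fin.last (n + 1)) rfl
    rw [h1]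
    have h2 : (((n + 1 : ℕ) : ℝ)) / ((n : ℝ) + 1) = 1 := by
      push_cast
      exact div_self hn'.ne'
    rw [h2]
    linarith [(hDb j).2]
  · intro i
    rw [hel]
    have h1 := hDb j
    simp only
    constructor <;> linarith
  · intro i
    rw [hel]
    obtain ⟨h1, h2⟩ := hDb j
    obtain ⟨h3, h4⟩ := hX i
    simp only
    set x := (ps i : ℝ) / (n + 1) with hx
    set D := (j.val : ℝ) / m with hD
    constructor
    · nlinarith [mul_nonneg h3 h3, mul_nonneg h1 h1]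
    · nlinarith [mul_nonneg h3 (sub_nonneg.2 h4), mul_nonneg h1 (sub_nonneg.2 h2)]
  · intro z hz
    rw [pl_own T ps z j hz, loc_fr]
  · intro z j' hz hj'
    obtain ⟨a, h1, h4, h⟩ := hfar2 z j' hz hj'
    exact h.1
  · intro z j' hz hj'
    obtain ⟨a, h1, h4, h⟩ := hfar2 z j' hz hj'
    exact h.2.1
  · intro z j' hz hj'
    obtain ⟨a, h1, h4, h⟩ := hfar2 z j' hz hj'
    exact h.2.2.1
  · intro z j' hz hj'
    obtain ⟨a, h1, h4, h⟩ := hfar2 z j' hz hj'
    exact h.2.2.2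
  · intro z j' hz hj'
    obtain ⟨a, h1, h4, h⟩ := hfar2 z j' hz (ne_of_gt hj')
    simp only [h4]
    have e1 : (1 : ℝ) / m ≤ (j'.val : ℝ) / m - (j.val : ℝ) / m := by
      rw [← sub_div]
      apply div_le_div_of_nonneg_right _ hM0.le
      have : (j.val : ℝ) + 1 ≤ j'.val := by exact_mod_cast hj'
      linarith
    have e2 := abs_le.1 h1
    have e3 : (0 : ℝ) < 1 / m := by positivity
    linarith [e2.1]
  · intro z j' hz hj'
    obtain ⟨a, h1, h4, h⟩ := hfar2 z j' hz (ne_of_lt hj')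
    simp only [h4]
    have e1 : (1 : ℝ) / m ≤ (j.val : ℝ) / m - (j'.val : ℝ) / m := by
      rw [← sub_div]
      apply div_le_div_of_nonneg_right _ hM0.le
      have : (j'.val : ℝ) + 1 ≤ j.val := by exact_mod_cast hj'
      linarith
    have e2 := abs_le.1 h1
    have e3 : (0 : ℝ) < 1 / m := by positivity
    linarith [e2.2]

end Pool.Agent.SO.H24
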